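import Mathlib

set_option autoImplicit false

namespace Pool.Agent.Results.MP_04b39a_gt.Cayley

open Set Polynomial

/-- The `ℓ_p` distance on `ℝ³`. -/
noncomputable def dp (p : ℝ) (x y : Fin 3 → ℝ) : ℝ := (∑ i, |x i - y i| ^ p) ^ (1 / p)

noncomputable def c : ℝ := (2 : ℝ) ^ (1 / 3 : ℝ)

theorem c_pos : 0 < c := by unfold c; positivity

theorem c_cube : c ^ 3 = 2 := by
  unfold c
  rw [← Real.rpow_natCast, ← Real.rpow_mul (by norm_num)]; norm_num

noncomputable def S (t : ℝ) : ℝ := t + 2 / (t + 1) - 1 / t + 2 / (t - 1)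

noncomputable def P (t : ℝ) : Fin 3 → ℝ := ![2 * t - S t, c * S t, 0]

noncomputable def Q (t : ℝ) : Fin 3 → ℝ := ![S t - 4 / (t + 1), S t + 2 / t, S t - 4 / (t - 1)]

theorem key {s t : ℝ} (hs : 10 ≤ s) (hst : s ≤ t) :
    ∑ i, |Q t i - Q s i| ^ (3 : ℝ) = ∑ i, |P t i - P s i| ^ (3 : ℝ) := by
  have h0 : 0 < s := by linarith
  have h1 : 0 < s - 1 := by linarith
  have h2 : 0 < t := by linarith
  have h3 : 0 < t - 1 := by linarith
  obtain ⟨d, hd⟩ : ∃ d, d = t - s := ⟨_, rfl⟩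
  have hd0 : 0 ≤ d := by linarith
  obtain ⟨a, ha⟩ : ∃ a, a = 2 / ((s + 1) * (t + 1)) := ⟨_, rfl⟩
  obtain ⟨b, hb⟩ : ∃ b, b = 1 / (s * t) := ⟨_, rfl⟩
  obtain ⟨e, he⟩ : ∃ e, e = 2 / ((s - 1) * (t - 1)) := ⟨_, rfl⟩
  have ha0 : 0 ≤ a ∧ a ≤ 1 / 10 := ⟨by rw [ha]; positivity, by
    rw [ha, div_le_iff₀ (by positivity)]; nlinarith⟩
  have hb0 : 0 ≤ b ∧ b ≤ 1 / 10 := ⟨by rw [hb]; positivity, by
    rw [hb, div_le_iff₀ (by positivity)]; nlinarith⟩
  have he0 : 0 ≤ e ∧ e ≤ 1 / 10 := ⟨by rw [he]; positivity, by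
    rw [he, div_le_iff₀ (by positivity)]; nlinarith⟩
  have e1 : Q t 0 - Q s 0 = d * (1 + a + b - e) := by
    simp only [Q, S, ha, hb, he, hd, Matrix.cons_val_zero]; field_simp; ring
  have e2 : Q t 1 - Q s 1 = d * (1 - a - b - e) := by
    simp only [Q, S, ha, hb, he, hd, Matrix.cons_val_one, Matrix.cons_val_zero]; field_simp; ring
  have e3 : Q t 2 - Q s 2 = d * (1 - a + b + e) := by
    simp only [Q, S, ha, hb, he, hd, Matrix.cons_val]; field_simp; ring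
  have e4 : P t 0 - P s 0 = d * (1 + a - b + e) := by
    simp only [P, S, ha, hb, he, hd, Matrix.cons_val_zero]; field_simp; ring
  have e5 : P t 1 - P s 1 = c * (d * (1 - a + b - e)) := by
    simp only [P, S, ha, hb, he, hd, Matrix.cons_val_one, Matrix.cons_val_zero]; field_simp; ring
  have e6 : P t 2 - P s 2 = 0 := by simp [P]
  have hr : a * b + b * e - a * e - a * b * e = 0 := by
    rw [ha, hb, he]; field_simp; ring
  have := c_pos
  simp only [Fin.sum_univ_three, e1, e2, e3, e4, e5, e6]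
  rw [abs_of_nonneg (mul_nonneg hd0 (by linarith)), abs_of_nonneg (mul_nonneg hd0 (by linarith)),
    abs_of_nonneg (mul_nonneg hd0 (by linarith)), abs_of_nonneg (mul_nonneg hd0 (by linarith)),
    abs_of_nonneg (mul_nonneg this.le (mul_nonneg hd0 (by linarith))), abs_zero]
  simp only [show (3 : ℝ) = ((3 : ℕ) : ℝ) by norm_num, Real.rpow_natCast, mul_pow, c_cube]
  linear_combination (24 * d ^ 3) * hr

theorem key' {s t : ℝ} (hs : 10 ≤ s) (ht : 10 ≤ t) : dp 3 (Q t) (Q s) = dp 3 (P t) (P s) := by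
  unfold dp
  rcases le_total s t with h | h
  · rw [key hs h]
  · simp only [abs_sub_comm (Q t _), abs_sub_comm (P t _)]
    rw [key ht h]

theorem P_inj {s t : ℝ} (h : P s = P t) : s = t := by
  have h0 := congrFun h 0
  have h1 := congrFun h 1
  simp only [P, Matrix.cons_val_zero, Matrix.cons_val_one] at h0 h1
  have := mul_left_cancel₀ c_pos.ne' h1
  linarith

theorem fin (l : (Fin 3 → ℝ) →ₗ[ℝ] ℝ) (hl : l ≠ 0) (δ : ℝ) : {t : ℝ | 10 ≤ t ∧ l (Q t) = δ}.Finite := by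
  obtain ⟨x, hx⟩ : ∃ x : Fin 3 → ℝ, ∀ v, l v = v 0 * x 0 + v 1 * x 1 + v 2 * x 2 :=
    ⟨fun i => l (fun j => if i = j then 1 else 0), fun v => by
      rw [l.pi_apply_eq_sum_univ]; simp [Fin.sum_univ_three]⟩
  let R : ℝ[X] := (C (x 0 + x 1 + x 2) * X - C δ) * (X + 1) * X * (X - 1) +
    C (2 * (x 1 + x 2 - x 0)) * X * (X - 1) + C (x 1 - x 0 - x 2) * (X + 1) * (X - 1) +
    C (2 * (x 0 + x 1 - x 2)) * (X + 1) * X
  have hR : R ≠ 0 := by
    intro h
    have h1 := congrArg (eval 1) h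
    have h2 := congrArg (eval 0) h
    have h3 := congrArg (eval (-1)) h
    simp only [R, eval_add, eval_mul, eval_sub, eval_C, eval_X, eval_one, eval_zero] at h1 h2 h3
    apply hl
    ext1 i
    ext
    simp only [LinearMap.comp_apply, hx, LinearMap.zero_apply]
    rw [show x 0 = 0 by linarith, show x 1 = 0 by linarith, show x 2 = 0 by linarith]
    simp
  refine (R.rootSet_finite ℝ).subset fun t ht => ?_
  rw [mem_rootSet_of_ne hR, coe_aeval_eq_eval]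
  obtain ⟨h1, h2⟩ := ht
  have h0 : t ≠ 0 := by linarith
  have h3 : t + 1 ≠ 0 := by linarith
  have h4 : t - 1 ≠ 0 := by linarith
  simp only [R, eval_add, eval_mul, eval_sub, eval_C, eval_X, eval_one, ← h2, hx, Q, S,
    Matrix.cons_val_zero, Matrix.cons_val_one, Matrix.cons_val]
  field_simp
  ring

theorem result : ∃ p : ℝ, 1 < p ∧ ∃ M M' : Set (Fin 3 → ℝ), M.Infinite ∧ (∃ h : ℝ, ∀ x ∈ M, x 2 = h) ∧
    (∃ φ : (Fin 3 → ℝ) → (Fin 3 → ℝ), BijOn φ M M' ∧ ∀ x ∈ M, ∀ y ∈ M, dp p (φ x) (φ y) = dp p x y) ∧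
    ∀ H : AffineSubspace ℝ (Fin 3 → ℝ), Module.finrank ℝ H.direction = 2 →
      (M' ∩ H).Finite ∧ ¬ M' ⊆ H := by
  have hQ : InjOn Q (Ici 10) := fun s hs t ht h => by
    have h1 := key' hs ht
    rw [h] at h1
    have h2 : dp 3 (Q t) (Q t) = 0 := by simp [dp]
    rw [h2, eq_comm, dp, Real.rpow_eq_zero_iff_of_nonneg (by positivity),
      Finset.sum_eq_zero_iff_of_nonneg (fun _ _ => by positivity)] at h1
    refine P_inj (funext fun i => ?_)
    have := h1.1 i (Finset.mem_univ i)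
    rw [Real.rpow_eq_zero_iff_of_nonneg (abs_nonneg _), abs_eq_zero, sub_eq_zero] at this
    exact this.1.symm
  have hφ : ∀ t, Q ((P t 0 + P t 1 / c) / 2) = Q t := fun t => by
    congr 1
    have := c_pos
    simp only [P, Matrix.cons_val_zero, Matrix.cons_val_one]
    field_simp
    ring
  refine ⟨3, by norm_num, P '' Ici 10, Q '' Ici 10, (Ici_infinite _).image fun _ _ _ _ h => P_inj h,
    ⟨0, by rintro _ ⟨t, -, rfl⟩; simp [P]⟩, ⟨fun x => Q ((x 0 + x 1 / c) / 2), ⟨?_, ?_, ?_⟩, ?_⟩, fun H hH => ?_⟩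
  · rintro _ ⟨t, ht, rfl⟩
    exact ⟨t, ht, (hφ t).symm⟩
  · rintro _ ⟨s, hs, rfl⟩ _ ⟨t, ht, rfl⟩ h
    simp only [hφ] at h
    rw [hQ hs ht h]
  · rintro _ ⟨t, ht, rfl⟩
    exact ⟨_, ⟨t, ht, rfl⟩, hφ t⟩
  · rintro _ ⟨s, hs, rfl⟩ _ ⟨t, ht, rfl⟩
    simp only [hφ]
    exact key' ht hs
  have hf : (Q '' Ici 10 ∩ H).Finite := by
    rcases (H : Set (Fin 3 → ℝ)).eq_empty_or_nonempty with h | ⟨z, hz⟩
    · simp [h]
    obtain ⟨l, hl, hl'⟩ := H.direction.exists_le_ker_of_lt_top (lt_top_iff_ne_top.2 fun h => by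
      rw [h] at hH; simp at hH)
    refine ((fin l hl (l z)).image Q).subset ?_
    rintro _ ⟨⟨t, ht, rfl⟩, h⟩
    refine ⟨t, ⟨ht, ?_⟩, rfl⟩
    have := hl' (H.vsub_mem_direction h hz)
    rwa [LinearMap.mem_ker, vsub_eq_sub, map_sub, sub_eq_zero] at this
  refine ⟨hf, fun h => ((Ici_infinite _).image hQ) ?_⟩
  rwa [inter_eq_left.2 h] at hf

end Pool.Agent.Results.MP_04b39a_gt.Cayley
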